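import Pool.Agent.Helper69.HG.Stm
import Pool.Agent.Helper51.HG.RSL

/-!
# Hall gaps, block RS: the sums of the resonator as sums over pairs of sets of primes
-/

set_option autoImplicit false

open Finset MeasureTheory Filter Topology Polynomial

namespace Pool.Agent.Helper77.HG

open Pool.Agent.Helper69.HG

/-- the sum over pairs of subsets -/
noncomputable def pairS (A : Finset ℕ) (ind : ℕ → ℕ) (u v : ℕ → ℝ) (F : ℕ → ℕ → ℕ → ℝ) : ℝ :=
  ∑ S ∈ A.powerset, ∑ S' ∈ A.powerset, F (∑ p ∈ S ∩ S', ind p) (∑ p ∈ S \ S', ind p) (∑ p ∈ S' \ S, ind p) *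
    ((∏ p ∈ S ∩ S', u p) * (∏ p ∈ S \ S', v p) * ∏ p ∈ S' \ S, v p)

/-- the primes of the resonator -/
noncomputable def AA (T : ℝ) : Finset ℕ := (Finset.Icc 1 ⌊T⌋₊).filter (fun p => p.Prime ∧ 2 ≤ ixp T p ∧ ixp T p ≤ 32)

/-- the test function -/
noncomputable def FQ (a b c : ℕ) : ℝ := (Qz (a + b) : ℝ) * Qz (a + c)

theorem mem_AA77 {T : ℝ} (hT : 1 < T) {p : ℕ} : p ∈ AA T ↔ p.Prime ∧ 2 ≤ ixp T p ∧ ixp T p ≤ 32 := by
  unfold AA
  rw [mem_filter, Finset.mem_Icc]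
  refine ⟨fun h => h.2, fun h => ⟨⟨h.1.one_lt.le, ?_⟩, h⟩⟩
  have hp0 : (0:ℝ) < p := by exact_mod_cast h.1.pos
  have hL := Real.log_pos hT
  have h1 : 160 * Real.log p / Real.log T ≤ 32 := by
    have h2 := h.2.2
    unfold ixp at h2
    rw [Nat.ceil_le] at h2
    exact_mod_cast h2
  have h3 : Real.log p ≤ Real.log T := by
    rw [div_le_iff₀ hL] at h1
    have h4 : 0 ≤ Real.log p := Real.log_nonneg (by exact_mod_cast h.1.one_lt.le)
    linarith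
  rw [Nat.le_floor_iff (by linarith)]
  exact (Real.log_le_log_iff hp0 (by linarith)).1 h3

theorem Qz_big77 {N : ℕ} (h : 64 < N) : Qz N = 0 := by
  unfold Qz
  rw [List.getD_eq_getElem?_getD, List.getElem?_eq_none (by show 65 ≤ N; omega)]
  rfl

/-- the size of a number from its index -/
theorem log_le77 {T : ℝ} (hT : 1 < T) (S : Finset ℕ) (hS : ∀ p ∈ S, p.Prime) :
    Real.log ((∏ p ∈ S, p : ℕ) : ℝ) ≤ (∑ p ∈ S, ixp T p : ℕ) / 160 * Real.log T := by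
  have hL := Real.log_pos hT
  rw [Nat.cast_prod, Real.log_prod (fun p hp => by exact_mod_cast (hS p hp).ne_zero), Nat.cast_sum, Finset.sum_div, Finset.sum_mul]
  refine Finset.sum_le_sum fun p _ => ?_
  have h1 : 160 * Real.log p / Real.log T ≤ (ixp T p : ℝ) := by
    unfold ixp
    exact Nat.le_ceil _
  rw [div_le_iff₀ hL] at h1
  linarith

theorem prod_pf77 {T : ℝ} (hT : 1 < T) {S : Finset ℕ} (hS : S ∈ (AA T).powerset) : (∏ p ∈ S, p).primeFactors = S :=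
  Nat.primeFactors_prod fun _ hp => ((mem_AA77 hT).1 (mem_powerset.1 hS hp)).1

theorem rr_prod77 {T : ℝ} (hT : 1 < T) {S : Finset ℕ} (hS : S ∈ (AA T).powerset) :
    rr T (∏ p ∈ S, p) = kp ^ S.card * Qz (∑ p ∈ S, ixp T p) := by
  have hpr : ∀ p ∈ S, p.Prime := fun p hp => ((mem_AA77 hT).1 (mem_powerset.1 hS hp)).1
  have hsq : Squarefree (∏ p ∈ S, p) := by
    refine Finset.squarefree_prod_of_pairwise_isCoprime (fun p hp q hq hpq => ?_) fun p hp => (hpr p hp).squarefree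
    exact Nat.coprime_iff_isRelPrime.1 ((Nat.coprime_primes (hpr p hp) (hpr q hq)).2 hpq)
  unfold rr ix
  rw [prod_pf77 hT hS, if_pos]
  exact ⟨hsq, fun p hp => ((mem_AA77 hT).1 (mem_powerset.1 hS hp)).2⟩

/-- a sum over the numbers of the resonator is a sum over sets of primes -/
theorem sum_rr77 {T : ℝ} (hT : 1 < T) (F : ℕ → ℝ) :
    ∑ h ∈ Finset.Icc 1 (XR T), rr T h * F h =
      ∑ S ∈ (AA T).powerset, kp ^ S.card * Qz (∑ p ∈ S, ixp T p) * F (∏ p ∈ S, p) := by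
  classical
  symm
  refine Finset.sum_bij_ne_zero (fun S _ _ => ∏ p ∈ S, p) ?_ ?_ ?_ ?_
  · intro S hS h0
    have hpr : ∀ p ∈ S, p.Prime := fun p hp => ((mem_AA77 hT).1 (mem_powerset.1 hS hp)).1
    have hQ : Qz (∑ p ∈ S, ixp T p) ≠ 0 := fun h => h0 (by rw [h]; simp)
    have h64 : ∑ p ∈ S, ixp T p ≤ 64 := by
      by_contra h
      exact hQ (Qz_big77 (not_le.1 h))
    have h1 : 1 ≤ ∏ p ∈ S, p := Finset.prod_pos fun p hp => (hpr p hp).pos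
    rw [Finset.mem_Icc]
    refine ⟨h1, ?_⟩
    unfold XR
    have hpos : (0:ℝ) < ((∏ p ∈ S, p : ℕ) : ℝ) := by exact_mod_cast h1
    rw [Nat.le_floor_iff (Real.rpow_nonneg (by linarith) _), ← Real.log_le_log_iff hpos (Real.rpow_pos_of_pos (by linarith) _),
      Real.log_rpow (by linarith)]
    refine (log_le77 hT S hpr).trans (mul_le_mul_of_nonneg_right ?_ (Real.log_pos hT).le)
    have h2 : ((∑ p ∈ S, ixp T p : ℕ) : ℝ) ≤ 64 := by exact_mod_cast h64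
    linarith
  · intro S hS _ S' hS' _ he
    rw [← prod_pf77 hT hS, ← prod_pf77 hT hS']
    exact congrArg _ he
  · intro h hh h0
    have hr : rr T h ≠ 0 := fun h1 => h0 (by rw [h1, zero_mul])
    have hc : Squarefree h ∧ ∀ p ∈ h.primeFactors, 2 ≤ ixp T p ∧ ixp T p ≤ 32 := by
      by_contra h1
      refine hr ?_
      unfold rr
      rw [if_neg h1]
    have hS : h.primeFactors ∈ (AA T).powerset := by
      rw [mem_powerset]
      intro p hp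
      rw [mem_AA77 hT]
      exact ⟨Nat.prime_of_mem_primeFactors hp, hc.2 p hp⟩
    have he : ∏ p ∈ h.primeFactors, p = h := Nat.prod_primeFactors_of_squarefree hc.1
    refine ⟨h.primeFactors, hS, ?_, he⟩
    rw [← rr_prod77 hT hS, he]
    exact h0
  · intro S hS _
    rw [rr_prod77 hT hS]

/-- greatest common divisor and least common multiple of two products -/
theorem gcd_lcm77 {T : ℝ} (hT : 1 < T) {S S' : Finset ℕ} (hS : S ∈ (AA T).powerset) (hS' : S' ∈ (AA T).powerset) :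
    Nat.gcd (∏ p ∈ S, p) (∏ p ∈ S', p) = ∏ p ∈ S ∩ S', p ∧
    Nat.lcm (∏ p ∈ S, p) (∏ p ∈ S', p) = (∏ p ∈ S ∩ S', p) * ((∏ p ∈ S \ S', p) * ∏ p ∈ S' \ S, p) := by
  have hpr : ∀ p ∈ S, p.Prime := fun p hp => ((mem_AA77 hT).1 (mem_powerset.1 hS hp)).1
  have hpr' : ∀ p ∈ S', p.Prime := fun p hp => ((mem_AA77 hT).1 (mem_powerset.1 hS' hp)).1
  have e1 : ∏ p ∈ S, p = (∏ p ∈ S ∩ S', p) * ∏ p ∈ S \ S', p := by
    rw [← Finset.prod_inter_mul_prod_sdiff S S']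
  have e2 : ∏ p ∈ S', p = (∏ p ∈ S ∩ S', p) * ∏ p ∈ S' \ S, p := by
    rw [← Finset.prod_inter_mul_prod_sdiff S' S, Finset.inter_comm]
  have hc : Nat.Coprime (∏ p ∈ S \ S', p) (∏ p ∈ S' \ S, p) := by
    refine Nat.Coprime.prod_left fun p hp => Nat.Coprime.prod_right fun q hq => ?_
    rw [Finset.mem_sdiff] at hp hq
    refine (Nat.coprime_primes (hpr p hp.1) (hpr' q hq.1)).2 fun h => ?_
    exact hq.2 (h ▸ hp.1)
  constructor
  · rw [e1, e2, Nat.gcd_mul_left, Nat.Coprime.gcd_eq_one hc, mul_one]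
  · rw [e1, e2, Nat.lcm_mul_left, Nat.Coprime.lcm_eq_mul hc]

theorem cast_rpow77 (S : Finset ℕ) (s : ℝ) : ((∏ p ∈ S, p : ℕ) : ℝ) ^ s = ∏ p ∈ S, (p : ℝ) ^ s := by
  rw [Nat.cast_prod, Real.finsetProd_rpow _ _ fun p _ => Nat.cast_nonneg p]

/-- the general form of both identities -/
theorem pair77 {T : ℝ} (hT : 1 < T) (G : ℕ → ℕ → ℝ) (u v : ℕ → ℝ)
    (hG : ∀ S ∈ (AA T).powerset, ∀ S' ∈ (AA T).powerset, G (∏ p ∈ S, p) (∏ p ∈ S', p) =
      (∏ p ∈ S ∩ S', u p) * (∏ p ∈ S \ S', v p) * ∏ p ∈ S' \ S, v p) :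
    ∑ h ∈ Finset.Icc 1 (XR T), ∑ k ∈ Finset.Icc 1 (XR T), rr T h * rr T k * G h k =
      pairS (AA T) (ixp T) (fun p => kp ^ 2 * u p) (fun p => kp * v p) FQ := by
  have e1 : ∑ h ∈ Finset.Icc 1 (XR T), ∑ k ∈ Finset.Icc 1 (XR T), rr T h * rr T k * G h k =
      ∑ h ∈ Finset.Icc 1 (XR T), rr T h * ∑ k ∈ Finset.Icc 1 (XR T), rr T k * G h k := by
    refine Finset.sum_congr rfl fun h _ => ?_
    rw [Finset.mul_sum]
    exact Finset.sum_congr rfl fun k _ => by ring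
  rw [e1, sum_rr77 hT]
  unfold pairS
  refine Finset.sum_congr rfl fun S hS => ?_
  rw [sum_rr77 hT (fun k => G (∏ p ∈ S, p) k), Finset.mul_sum]
  refine Finset.sum_congr rfl fun S' hS' => ?_
  rw [hG S hS S' hS']
  unfold FQ
  have i1 : ∑ p ∈ S, ixp T p = ∑ p ∈ S ∩ S', ixp T p + ∑ p ∈ S \ S', ixp T p := by
    rw [← Finset.sum_inter_add_sum_sdiff S S']
  have i2 : ∑ p ∈ S', ixp T p = ∑ p ∈ S ∩ S', ixp T p + ∑ p ∈ S' \ S, ixp T p := by
    rw [← Finset.sum_inter_add_sum_sdiff S' S, Finset.inter_comm]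
  have c1 : S.card = (S ∩ S').card + (S \ S').card := (Finset.card_inter_add_card_sdiff S S').symm
  have c2 : S'.card = (S ∩ S').card + (S' \ S).card := by
    rw [Finset.inter_comm]
    exact (Finset.card_inter_add_card_sdiff S' S).symm
  rw [← i1, ← i2, c1, c2]
  simp only [Finset.prod_mul_distrib, Finset.prod_const]
  ring

theorem Ql_pair77 {T : ℝ} (hT : 1 < T) (σ : ℝ) : Ql (XR T) (rr T) σ =
    pairS (AA T) (ixp T) (fun p => kp ^ 2 * (p : ℝ) ^ (-2 * σ)) (fun p => kp * (p : ℝ) ^ (-2 * σ)) FQ := by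
  unfold Ql
  refine pair77 hT (fun h k => (Nat.lcm h k : ℝ) ^ (-2 * σ)) _ _ fun S hS S' hS' => ?_
  show ((Nat.lcm (∏ p ∈ S, p) (∏ p ∈ S', p) : ℕ) : ℝ) ^ (-2 * σ) = _
  rw [(gcd_lcm77 hT hS hS').2, Nat.cast_mul, Nat.cast_mul, Real.mul_rpow (Nat.cast_nonneg _) (by positivity),
    Real.mul_rpow (Nat.cast_nonneg _) (Nat.cast_nonneg _), cast_rpow77, cast_rpow77, cast_rpow77]
  ring

theorem Qg_pair77 {T : ℝ} (hT : 1 < T) (σ : ℝ) : Qg (XR T) (rr T) σ =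
    pairS (AA T) (ixp T) (fun p => kp ^ 2 * (p : ℝ) ^ (-2 * σ)) (fun p => kp * (p : ℝ) ^ (-2 * (1 / 2 : ℝ))) FQ := by
  unfold Qg
  refine pair77 hT (fun h k => (Nat.gcd h k : ℝ) ^ (1 - 2 * σ) / Nat.lcm h k) _ _ fun S hS S' hS' => ?_
  show ((Nat.gcd (∏ p ∈ S, p) (∏ p ∈ S', p) : ℕ) : ℝ) ^ (1 - 2 * σ) / ((Nat.lcm (∏ p ∈ S, p) (∏ p ∈ S', p) : ℕ) : ℝ) = _
  have hpr : ∀ p ∈ S, p.Prime := fun p hp => ((mem_AA77 hT).1 (mem_powerset.1 hS hp)).1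
  have hpos : (0:ℝ) < ((∏ p ∈ S ∩ S', p : ℕ) : ℝ) := by
    exact_mod_cast Finset.prod_pos fun p hp => (hpr p (Finset.mem_inter.1 hp).1).pos
  rw [(gcd_lcm77 hT hS hS').1, (gcd_lcm77 hT hS hS').2, Nat.cast_mul, Nat.cast_mul]
  have e1 : ((∏ p ∈ S ∩ S', p : ℕ) : ℝ) ^ (1 - 2 * σ) =
      ((∏ p ∈ S ∩ S', p : ℕ) : ℝ) * ((∏ p ∈ S ∩ S', p : ℕ) : ℝ) ^ (-2 * σ) := by
    rw [show (1 - 2 * σ) = 1 + -2 * σ by ring, Real.rpow_add hpos, Real.rpow_one]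
  have e2 : ∀ R : Finset ℕ, ((∏ p ∈ R, p : ℕ) : ℝ)⁻¹ = ∏ p ∈ R, (p : ℝ) ^ (-2 * (1 / 2 : ℝ)) := by
    intro R
    rw [← cast_rpow77, show (-2 * (1 / 2 : ℝ)) = -1 by norm_num, Real.rpow_neg_one]
  rw [e1, ← e2, ← e2, ← cast_rpow77]
  field_simp

end Pool.Agent.Helper77.HG
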