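import Pool.Agent.Helper77.HG.One

/-!
# HG (MP_8958e8), BRO part 1: the sums with the divisor functions
-/

set_option autoImplicit false

open MeasureTheory Set Filter Topology
open Pool.Agent.Helper4.SH Pool.Agent.Helper69.PP Pool.Agent.Helper25.HG Pool.Agent.Helper34.HO

namespace Pool.Agent.Helper77.HG

/-- the number of factorisations into `k` factors -/
noncomputable def dv (k n : ℕ) : ℝ := (((ArithmeticFunction.zeta ^ k : ArithmeticFunction ℕ) n : ℕ) : ℝ)

theorem dv_nonneg77 (k n : ℕ) : 0 ≤ dv k n := Nat.cast_nonneg _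

theorem dv_one77 {n : ℕ} (hn : n ≠ 0) : dv 1 n = 1 := by
  unfold dv
  rw [pow_one, ArithmeticFunction.zeta_apply_ne hn, Nat.cast_one]

theorem dv_succ77 (k n : ℕ) : dv (k + 1) n = ∑ x ∈ n.divisorsAntidiagonal, dv k x.2 := by
  unfold dv
  rw [pow_succ', ArithmeticFunction.mul_apply, Nat.cast_sum]
  refine Finset.sum_congr rfl fun x hx => ?_
  have hx1 : x.1 ≠ 0 := Nat.ne_zero_of_mem_divisorsAntidiagonal hx |>.1
  rw [ArithmeticFunction.zeta_apply_ne hx1, one_mul]

theorem dv_add77 (k l n : ℕ) : dv (k + l) n = ∑ x ∈ n.divisorsAntidiagonal, dv k x.1 * dv l x.2 := by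
  unfold dv
  rw [pow_add, ArithmeticFunction.mul_apply, Nat.cast_sum]
  refine Finset.sum_congr rfl fun x _ => ?_
  rw [Nat.cast_mul]

theorem zeta_pow_mult77 (k : ℕ) : (ArithmeticFunction.zeta ^ k : ArithmeticFunction ℕ).IsMultiplicative := by
  induction k with
  | zero => rw [pow_zero]; exact ArithmeticFunction.isMultiplicative_one
  | succ k ih => rw [pow_succ]; exact ih.mul ArithmeticFunction.isMultiplicative_zeta

theorem dv_mul77 (k : ℕ) {m n : ℕ} (h : Nat.Coprime m n) : dv k (m * n) = dv k m * dv k n := by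
  unfold dv
  rw [(zeta_pow_mult77 k).map_mul_of_coprime h, Nat.cast_mul]

theorem zeta_pow_prime77 (k : ℕ) {p : ℕ} (hp : p.Prime) : (ArithmeticFunction.zeta ^ k : ArithmeticFunction ℕ) p = k := by
  induction k with
  | zero =>
    rw [pow_zero, ArithmeticFunction.one_apply_ne hp.one_lt.ne']
  | succ k ih =>
    rw [pow_succ, ArithmeticFunction.mul_zeta_apply, Nat.Prime.divisors hp, Finset.sum_pair hp.one_lt.ne,
      ih, (zeta_pow_mult77 k).map_one]
    omega

theorem dv_squarefree77 (k : ℕ) {n : ℕ} (hn : Squarefree n) : dv k n = (k : ℝ) ^ n.primeFactors.card := by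
  unfold dv
  have h1 := (zeta_pow_mult77 k).map_prod_of_subset_primeFactors n n.primeFactors (Finset.Subset.refl _)
  rw [Nat.prod_primeFactors_of_squarefree hn] at h1
  rw [h1]
  rw [Finset.prod_congr rfl (fun p hp => zeta_pow_prime77 k (Nat.prime_of_mem_primeFactors hp)), Finset.prod_const]
  push_cast
  rfl

/-- a double sum over rough numbers, by the product -/
theorem conv_sum77 {ε T B b : ℝ} (hT : 1 < T) (hbB : b ≤ B) (F : ℕ → ℕ → ℝ) :
    ∑ i ∈ RT ε T B, ∑ j ∈ RT ε T B, (if yy T i + yy T j ≤ b then F i j else 0) =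
      ∑ n ∈ RT ε T B, (if yy T n ≤ b then ∑ x ∈ n.divisorsAntidiagonal, F x.1 x.2 else 0) := by
  classical
  rw [← Finset.sum_product' (RT ε T B) (RT ε T B) (fun i j => if yy T i + yy T j ≤ b then F i j else 0),
    ← Finset.sum_filter (fun x : ℕ × ℕ => yy T x.1 + yy T x.2 ≤ b) (fun x => F x.1 x.2),
    ← Finset.sum_filter (fun n : ℕ => yy T n ≤ b)]
  rw [← Finset.sum_fiberwise_of_maps_to (s := (RT ε T B ×ˢ RT ε T B).filter (fun x : ℕ × ℕ => yy T x.1 + yy T x.2 ≤ b))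
    (t := (RT ε T B).filter (fun n : ℕ => yy T n ≤ b)) (g := fun x : ℕ × ℕ => x.1 * x.2)]
  · refine Finset.sum_congr rfl fun n hn => Finset.sum_congr ?_ fun _ _ => rfl
    rw [Finset.mem_filter, mem_RT_yy77 hT] at hn
    ext x
    rw [Finset.mem_filter, Finset.mem_filter, Finset.mem_product, mem_RT_yy77 hT, mem_RT_yy77 hT, Nat.mem_divisorsAntidiagonal]
    constructor
    · rintro ⟨_, h⟩
      exact ⟨h, hn.1.2.1⟩
    · rintro ⟨h1, h2⟩
      have hx1 : x.1 ≠ 0 := fun h => h2 (by rw [← h1, h, zero_mul])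
      have hx2 : x.2 ≠ 0 := fun h => h2 (by rw [← h1, h, mul_zero])
      have h3 : RF ε T (x.1 * x.2) := by rw [h1]; exact hn.1.2
      rw [RF_mul77 hx1 hx2] at h3
      have h4 : yy T x.1 + yy T x.2 ≤ b := by rw [← yy_mul77 hx1 hx2, h1]; exact hn.2
      have h5 := yy_nonneg77 hT x.1
      have h6 := yy_nonneg77 hT x.2
      exact ⟨⟨⟨⟨by linarith, h3.1⟩, ⟨by linarith, h3.2⟩⟩, h4⟩, h1⟩
  · intro x hx
    rw [Finset.mem_filter, Finset.mem_product, mem_RT_yy77 hT, mem_RT_yy77 hT] at hx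
    rw [Finset.mem_filter, mem_RT_yy77 hT]
    have hx1 := hx.1.1.2.1
    have hx2 := hx.1.2.2.1
    show (yy T (x.1 * x.2) ≤ B ∧ RF ε T (x.1 * x.2)) ∧ yy T (x.1 * x.2) ≤ b
    rw [yy_mul77 hx1 hx2]
    exact ⟨⟨hx.2.trans hbB, (RF_mul77 hx1 hx2).2 ⟨hx.1.1.2, hx.1.2.2⟩⟩, hx.2⟩

/-- the density of the `k`-fold products -/
noncomputable def kap (k : ℕ) (u : ℝ) : ℝ := u ^ k / k.factorial

theorem kap_cont77 (k : ℕ) : Continuous (kap k) := by
  unfold kap
  fun_prop

theorem kap_le77 (k : ℕ) {B x : ℝ} (h0 : 0 ≤ x) (h1 : x ≤ B) : |kap k x| ≤ B ^ k := by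
  unfold kap
  rw [abs_of_nonneg (by positivity)]
  have h2 : (1:ℝ) ≤ (k.factorial : ℝ) := by exact_mod_cast Nat.one_le_iff_ne_zero.2 (Nat.factorial_ne_zero k)
  calc x ^ k / k.factorial ≤ x ^ k / 1 := by gcongr
    _ = x ^ k := div_one _
    _ ≤ B ^ k := by gcongr

theorem kap_int77 (k : ℕ) (u : ℝ) : ∫ t in (0:ℝ)..u, kap k t = kap (k + 1) u := by
  unfold kap
  rw [intervalIntegral.integral_div, integral_pow, Nat.factorial_succ]
  push_cast
  have h1 : (k.factorial : ℝ) ≠ 0 := by exact_mod_cast Nat.factorial_ne_zero k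
  have h2 : (k:ℝ) + 1 ≠ 0 := by positivity
  field_simp
  simp

/-- **The sums with the divisor functions.** -/
theorem multi77 (k : ℕ) (B : ℝ) (hB : 0 < B) : ∀ η : ℝ, 0 < η → ∃ ε0 : ℝ, 0 < ε0 ∧ ∀ ε : ℝ, 0 < ε → ε ≤ ε0 →
    ∀ᶠ T : ℝ in atTop, Tst (RT ε T B) (fun n => dv (k + 1) n / (n : ℝ) / rh ε T ^ (k + 1)) (yy T) (kap k) B η := by
  induction k with
  | zero =>
    intro η hη
    obtain ⟨ε0, hε0, h⟩ := one77 B η hB hη
    refine ⟨ε0, hε0, fun ε hε hεle => ?_⟩
    filter_upwards [h ε hε hεle, eventually_gt_atTop 1] with T hTst hT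
    intro b hb hbB K f hf
    have h1 := hTst b hb hbB K f hf
    have e1 : ∑ n ∈ RT ε T B, (if yy T n ≤ b then dv (0 + 1) n / (n : ℝ) / rh ε T ^ (0 + 1) * f (yy T n) else 0) =
        ∑ n ∈ RT ε T B, (if yy T n ≤ b then 1 / (n : ℝ) / rh ε T * f (yy T n) else 0) := by
      refine Finset.sum_congr rfl fun n hn => ?_
      rw [mem_RT_yy77 hT] at hn
      rw [zero_add, dv_one77 hn.2.1, pow_one]
    have e2 : ∀ x, kap 0 x = 1 := fun x => by simp [kap]
    simp only [e2]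
    rw [e1]
    exact h1
  | succ k ih =>
    intro η hη
    set K2 : ℝ := B ^ k with hK2
    have hK20 : 0 < K2 := by positivity
    obtain ⟨ε1, hε1, h1⟩ := one77 B (min 1 (η / (2 * (K2 * (B + 1))))) hB (lt_min one_pos (by positivity))
    obtain ⟨ε2, hε2, h2⟩ := ih (η / (2 * (B + 1))) (by positivity)
    refine ⟨min ε1 ε2, lt_min hε1 hε2, fun ε hε hεle => ?_⟩
    filter_upwards [h1 ε hε (hεle.trans (min_le_left _ _)), h2 ε hε (hεle.trans (min_le_right _ _)), eventually_gt_atTop 1]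
      with T hT1 hT2 hT
    have hρ := rh_pos77 (ε := ε) hT
    intro b hb hbB K f hf
    have hK := hf.nonneg hb
    have h3 := Tst.conv hT1 hT2 (kap_cont77 k) (fun x h0 h1 => kap_le77 k h0 h1)
      (fun i _ => by positivity) (fun i _ => yy_nonneg77 hT i) (fun i _ => yy_nonneg77 hT i) (by positivity) hb hbB hf
    have e1 : ∑ i ∈ RT ε T B, ∑ j ∈ RT ε T B, (if yy T i + yy T j ≤ b then
        1 / (i : ℝ) / rh ε T * (dv (k + 1) j / (j : ℝ) / rh ε T ^ (k + 1)) * f (yy T i + yy T j) else 0) =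
        ∑ n ∈ RT ε T B, (if yy T n ≤ b then dv (k + 1 + 1) n / (n : ℝ) / rh ε T ^ (k + 1 + 1) * f (yy T n) else 0) := by
      rw [conv_sum77 hT hbB (fun i j => 1 / (i : ℝ) / rh ε T * (dv (k + 1) j / (j : ℝ) / rh ε T ^ (k + 1)) *
        f (yy T i + yy T j))]
      refine Finset.sum_congr rfl fun n hn => ?_
      congr 1
      rw [dv_succ77 (k + 1) n, Finset.sum_div, Finset.sum_div, Finset.sum_mul]
      refine Finset.sum_congr rfl fun x hx => ?_
      have hx0 := Nat.ne_zero_of_mem_divisorsAntidiagonal hx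
      rw [Nat.mem_divisorsAntidiagonal] at hx
      rw [← yy_mul77 hx0.1 hx0.2, hx.1]
      have h5 : (n : ℝ) = x.1 * x.2 := by rw [← hx.1, Nat.cast_mul]
      rw [h5]
      have h6 : (x.1 : ℝ) ≠ 0 := by exact_mod_cast hx0.1
      have h7 : (x.2 : ℝ) ≠ 0 := by exact_mod_cast hx0.2
      field_simp
      ring
    rw [e1] at h3
    have e2 : ∫ u in (0:ℝ)..b, (∫ t in (0:ℝ)..u, kap k t) * f u = ∫ u in (0:ℝ)..b, kap (k + 1) u * f u := by
      refine intervalIntegral.integral_congr fun u _ => ?_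
      show (∫ t in (0:ℝ)..u, kap k t) * f u = kap (k + 1) u * f u
      rw [kap_int77]
    rw [e2] at h3
    refine h3.trans (mul_le_mul_of_nonneg_right ?_ hK)
    have h4 : min 1 (η / (2 * (K2 * (B + 1)))) * (K2 * (B + 1)) ≤ η / 2 := by
      calc min 1 (η / (2 * (K2 * (B + 1)))) * (K2 * (B + 1)) ≤ η / (2 * (K2 * (B + 1))) * (K2 * (B + 1)) :=
            mul_le_mul_of_nonneg_right (min_le_right _ _) (by positivity)
        _ = η / 2 := by field_simp
    have h5 : η / (2 * (B + 1)) * (B + min 1 (η / (2 * (K2 * (B + 1))))) ≤ η / 2 := by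
      calc η / (2 * (B + 1)) * (B + min 1 (η / (2 * (K2 * (B + 1))))) ≤ η / (2 * (B + 1)) * (B + 1) :=
            mul_le_mul_of_nonneg_left (by linarith [min_le_left (1:ℝ) (η / (2 * (K2 * (B + 1))))]) (by positivity)
        _ = η / 2 := by field_simp
    linarith

end Pool.Agent.Helper77.HG
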