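import Mathlib

/-!
# HG (MP_8958e8), BRO part 1: test functions against densities on an interval

`Tst S w l κ B η`: the weights `w` at the places `l` have the density `κ` on `[0, B]`, up to `η`, for Lipschitz test functions.
-/

set_option autoImplicit false

open MeasureTheory Set Filter Topology

namespace Pool.Agent.Helper77.HG

/-- Fubini on the triangle. -/
theorem tri77 {b : ℝ} (hb : 0 ≤ b) {κ f : ℝ → ℝ} (hκ : Continuous κ) (hf : Continuous f) :
    ∫ x in (0:ℝ)..b, ∫ y in (0:ℝ)..(b - x), κ y * f (x + y) = ∫ u in (0:ℝ)..b, (∫ t in (0:ℝ)..u, κ t) * f u := by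
  have h1 : ∀ x ∈ Set.uIcc 0 b, ∫ y in (0:ℝ)..(b - x), κ y * f (x + y) =
      ∫ u in (0:ℝ)..b, (if x < u then κ (u - x) * f u else 0) := by
    intro x hx
    rw [uIcc_of_le hb] at hx
    have e1 : ∫ u in x..b, κ (u - x) * f u = ∫ y in (0:ℝ)..(b - x), κ y * f (x + y) := by
      have h := intervalIntegral.integral_comp_sub_right (a := x) (b := b) (fun y => κ y * f (x + y)) x
      rw [sub_self] at h
      rw [← h]
      refine intervalIntegral.integral_congr fun u _ => ?_
      show κ (u - x) * f u = κ (u - x) * f (x + (u - x))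
      rw [add_sub_cancel]
    have e2 : ∫ u in (0:ℝ)..x, (if x < u then κ (u - x) * f u else 0) = 0 := by
      rw [intervalIntegral.integral_zero_ae]
      refine Eventually.of_forall fun u hu => ?_
      rw [uIoc_of_le hx.1] at hu
      rw [if_neg (not_lt.2 hu.2)]
    have e3 : ∫ u in x..b, (if x < u then κ (u - x) * f u else 0) = ∫ u in x..b, κ (u - x) * f u := by
      refine intervalIntegral.integral_congr_ae (Eventually.of_forall fun u hu => ?_)
      rw [uIoc_of_le hx.2] at hu
      rw [if_pos hu.1]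
    have hc : Continuous (fun u => κ (u - x) * f u) := by fun_prop
    have i1 : IntervalIntegrable (fun u => if x < u then κ (u - x) * f u else 0) volume 0 x := by
      refine (intervalIntegrable_const (c := (0:ℝ))).congr_ae ?_
      rw [Filter.EventuallyEq, ae_restrict_iff' measurableSet_uIoc]
      refine Eventually.of_forall fun u hu => ?_
      rw [uIoc_of_le hx.1] at hu
      rw [if_neg (not_lt.2 hu.2)]
    have i2 : IntervalIntegrable (fun u => if x < u then κ (u - x) * f u else 0) volume x b := by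
      refine (hc.intervalIntegrable x b).congr_ae ?_
      rw [Filter.EventuallyEq, ae_restrict_iff' measurableSet_uIoc]
      refine Eventually.of_forall fun u hu => ?_
      rw [uIoc_of_le hx.2] at hu
      rw [if_pos hu.1]
    rw [← intervalIntegral.integral_add_adjacent_intervals i1 i2, e2, e3, e1, zero_add]
  rw [intervalIntegral.integral_congr h1]
  have hint : IntegrableOn (Function.uncurry fun x u : ℝ => if x < u then κ (u - x) * f u else 0)
      (uIoc 0 b ×ˢ uIoc 0 b) (volume.prod volume) := by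
    have hc2 : Continuous (fun p : ℝ × ℝ => κ (p.2 - p.1) * f p.2) := by fun_prop
    obtain ⟨C, hC⟩ := (isCompact_Icc.prod isCompact_Icc : IsCompact (Icc (0:ℝ) b ×ˢ Icc (0:ℝ) b)).exists_bound_of_continuousOn
      hc2.continuousOn
    have hC0 : 0 ≤ C := (norm_nonneg _).trans (hC (0, 0) ⟨⟨le_rfl, hb⟩, ⟨le_rfl, hb⟩⟩)
    refine Measure.integrableOn_of_bounded (M := C) ?_ ?_ ?_
    · rw [Measure.prod_prod]
      rw [uIoc_of_le hb, Real.volume_Ioc]
      exact (ENNReal.mul_lt_top ENNReal.ofReal_lt_top ENNReal.ofReal_lt_top).ne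
    · refine (Measurable.ite (measurableSet_lt measurable_fst measurable_snd) hc2.measurable
        measurable_const).aestronglyMeasurable
    · rw [ae_restrict_iff' (measurableSet_uIoc.prod measurableSet_uIoc)]
      refine Eventually.of_forall fun p hp => ?_
      rw [uIoc_of_le hb] at hp
      show ‖(if p.1 < p.2 then κ (p.2 - p.1) * f p.2 else 0)‖ ≤ C
      split_ifs
      · exact hC p ⟨⟨hp.1.1.le, hp.1.2⟩, ⟨hp.2.1.le, hp.2.2⟩⟩
      · simpa using hC0
  rw [intervalIntegral_intervalIntegral_swap hint]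
  refine intervalIntegral.integral_congr fun u hu => ?_
  rw [uIcc_of_le hb] at hu
  show ∫ x in (0:ℝ)..b, (if x < u then κ (u - x) * f u else 0) = (∫ t in (0:ℝ)..u, κ t) * f u
  have hc : Continuous (fun x => κ (u - x) * f u) := by fun_prop
  have e2 : ∫ x in (0:ℝ)..u, (if x < u then κ (u - x) * f u else 0) = (∫ t in (0:ℝ)..u, κ t) * f u := by
    have h3 : ∫ x in (0:ℝ)..u, (if x < u then κ (u - x) * f u else 0) = ∫ x in (0:ℝ)..u, κ (u - x) * f u := by
      refine intervalIntegral.integral_congr_ae ?_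
      have h4 : ∀ᵐ x : ℝ, x ≠ u := by simp [ae_iff, measure_singleton]
      filter_upwards [h4] with x hx hxu
      rw [uIoc_of_le hu.1] at hxu
      rw [if_pos (lt_of_le_of_ne hxu.2 hx)]
    rw [h3, intervalIntegral.integral_mul_const]
    congr 1
    have h5 := intervalIntegral.integral_comp_sub_left (a := 0) (b := u) κ u
    rw [sub_self, sub_zero] at h5
    exact h5
  have e3 : ∫ x in u..b, (if x < u then κ (u - x) * f u else 0) = 0 := by
    rw [intervalIntegral.integral_zero_ae]
    refine Eventually.of_forall fun x hx => ?_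
    rw [uIoc_of_le hu.2] at hx
    rw [if_neg (not_lt.2 hx.1.le)]
  have i1 : IntervalIntegrable (fun x => if x < u then κ (u - x) * f u else 0) volume 0 u := by
    refine (hc.intervalIntegrable 0 u).congr_ae ?_
    rw [Filter.EventuallyEq, ae_restrict_iff' measurableSet_uIoc]
    have h4 : ∀ᵐ x : ℝ, x ≠ u := by simp [ae_iff, measure_singleton]
    filter_upwards [h4] with x hx hxu
    rw [uIoc_of_le hu.1] at hxu
    rw [if_pos (lt_of_le_of_ne hxu.2 hx)]
  have i2 : IntervalIntegrable (fun x => if x < u then κ (u - x) * f u else 0) volume u b := by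
    refine (intervalIntegrable_const (c := (0:ℝ))).congr_ae ?_
    rw [Filter.EventuallyEq, ae_restrict_iff' measurableSet_uIoc]
    refine Eventually.of_forall fun x hx => ?_
    rw [uIoc_of_le hu.2] at hx
    rw [if_neg (not_lt.2 hx.1.le)]
  rw [← intervalIntegral.integral_add_adjacent_intervals i1 i2, e2, e3, add_zero]

/-- test functions on `[0, b]`: continuous, bounded by `K`, Lipschitz with constant `K` -/
structure TFK (K b : ℝ) (f : ℝ → ℝ) : Prop where
  cont : Continuous f
  bd : ∀ x, 0 ≤ x → x ≤ b → |f x| ≤ K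
  lip : ∀ x y, 0 ≤ x → x ≤ y → y ≤ b → |f x - f y| ≤ K * (y - x)

theorem TFK.nonneg {K b : ℝ} {f : ℝ → ℝ} (h : TFK K b f) (hb : 0 ≤ b) : 0 ≤ K := (abs_nonneg _).trans (h.bd 0 le_rfl hb)

theorem TFK.mono {K K' b : ℝ} {f : ℝ → ℝ} (h : TFK K b f) (hK : K ≤ K') : TFK K' b f :=
  ⟨h.cont, fun x h0 h1 => (h.bd x h0 h1).trans hK, fun x y h0 h1 h2 =>
    (h.lip x y h0 h1 h2).trans (mul_le_mul_of_nonneg_right hK (by linarith))⟩

theorem TFK.one (b : ℝ) : TFK 1 b (fun _ => (1:ℝ)) :=
  ⟨continuous_const, fun _ _ _ => by simp, fun x y _ h1 _ => by simpa using h1⟩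

/-- the shift of a test function -/
theorem TFK.shift {K b : ℝ} {f : ℝ → ℝ} (h : TFK K b f) {a : ℝ} (ha : 0 ≤ a) : TFK K (b - a) (fun y => f (a + y)) := by
  refine ⟨h.cont.comp (continuous_const.add continuous_id), fun x h0 h1 => h.bd _ (by linarith) (by linarith),
    fun x y h0 h1 h2 => ?_⟩
  have := h.lip (a + x) (a + y) (by linarith) (by linarith) (by linarith)
  calc |f (a + x) - f (a + y)| ≤ K * (a + y - (a + x)) := this
    _ = K * (y - x) := by ring

/-- the weights `w` at the places `l` have the density `κ` on `[0, B]`, up to `η` -/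
def Tst {ι : Type*} (S : Finset ι) (w l : ι → ℝ) (κ : ℝ → ℝ) (B η : ℝ) : Prop :=
  ∀ b, 0 ≤ b → b ≤ B → ∀ (K : ℝ) (f : ℝ → ℝ), TFK K b f →
    |∑ n ∈ S, (if l n ≤ b then w n * f (l n) else 0) - ∫ x in (0:ℝ)..b, κ x * f x| ≤ η * K

theorem Tst.mono {ι : Type*} {S : Finset ι} {w l : ι → ℝ} {κ : ℝ → ℝ} {B η η' : ℝ} (h : Tst S w l κ B η) (hη : η ≤ η') :
    Tst S w l κ B η' := fun b h0 h1 K f hf =>
  (h b h0 h1 K f hf).trans (mul_le_mul_of_nonneg_right hη (hf.nonneg h0))

/-- the mass of `[0, b]` -/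
theorem Tst.mass {ι : Type*} {S : Finset ι} {w l : ι → ℝ} {κ : ℝ → ℝ} {B η : ℝ} (h : Tst S w l κ B η) {b : ℝ} (h0 : 0 ≤ b)
    (h1 : b ≤ B) : |∑ n ∈ S, (if l n ≤ b then w n else 0) - ∫ x in (0:ℝ)..b, κ x| ≤ η := by
  simpa using h b h0 h1 1 (fun _ => (1:ℝ)) (TFK.one b)

/-- the truncated transform of a test function -/
theorem TFK.inner {K K2 b B : ℝ} {f κ : ℝ → ℝ} (hf : TFK K b f) (hb : 0 ≤ b) (hbB : b ≤ B) (hκ : Continuous κ)
    (hK2 : ∀ x, 0 ≤ x → x ≤ B → |κ x| ≤ K2) :
    TFK (K2 * (B + 1) * K) b (fun x => ∫ y in (0:ℝ)..(b - x), κ y * f (x + y)) := by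
  have hK := hf.nonneg hb
  have hB : 0 ≤ B := hb.trans hbB
  have hK20 : 0 ≤ K2 := (abs_nonneg _).trans (hK2 0 le_rfl hB)
  have hc : ∀ x, Continuous (fun y => κ y * f (x + y)) := fun x =>
    hκ.mul (hf.cont.comp (continuous_const.add continuous_id))
  refine ⟨?_, fun x h0 h1 => ?_, fun x y h0 h1 h2 => ?_⟩
  · have hcc : Continuous (Function.uncurry fun x y : ℝ => κ y * f (x + y)) :=
      (hκ.comp continuous_snd).mul (hf.cont.comp (continuous_fst.add continuous_snd))
    exact intervalIntegral.continuous_parametric_intervalIntegral_of_continuous hcc (continuous_const.sub continuous_id)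
  · have h3 : ∀ y ∈ uIoc (0:ℝ) (b - x), ‖κ y * f (x + y)‖ ≤ K2 * K := by
      intro y hy
      rw [uIoc_of_le (by linarith)] at hy
      rw [norm_mul, Real.norm_eq_abs, Real.norm_eq_abs]
      exact mul_le_mul (hK2 y hy.1.le (by linarith [hy.2])) (hf.bd _ (by linarith [hy.1]) (by linarith [hy.2])) (abs_nonneg _) hK20
    have h4 := intervalIntegral.norm_integral_le_of_norm_le_const h3
    rw [Real.norm_eq_abs, sub_zero, abs_of_nonneg (by linarith : 0 ≤ b - x)] at h4
    refine h4.trans ?_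
    calc K2 * K * (b - x) ≤ K2 * K * (B + 1) := mul_le_mul_of_nonneg_left (by linarith) (by positivity)
      _ = K2 * (B + 1) * K := by ring
  · have hy0 : 0 ≤ y := h0.trans h1
    have e : (∫ t in (0:ℝ)..(b - x), κ t * f (x + t)) - ∫ t in (0:ℝ)..(b - y), κ t * f (y + t) =
        (∫ t in (0:ℝ)..(b - y), (κ t * f (x + t) - κ t * f (y + t))) + ∫ t in (b - y)..(b - x), κ t * f (x + t) := by
      rw [intervalIntegral.integral_sub ((hc x).intervalIntegrable _ _) ((hc y).intervalIntegrable _ _),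
        ← intervalIntegral.integral_add_adjacent_intervals ((hc x).intervalIntegrable 0 (b - y))
          ((hc x).intervalIntegrable (b - y) (b - x))]
      ring
    have h3 : ∀ t ∈ uIoc (0:ℝ) (b - y), ‖κ t * f (x + t) - κ t * f (y + t)‖ ≤ K2 * (K * (y - x)) := by
      intro t ht
      rw [uIoc_of_le (by linarith)] at ht
      rw [← mul_sub, norm_mul, Real.norm_eq_abs, Real.norm_eq_abs]
      refine mul_le_mul (hK2 t ht.1.le (by linarith [ht.2])) ?_ (abs_nonneg _) hK20
      have := hf.lip (x + t) (y + t) (by linarith [ht.1]) (by linarith) (by linarith [ht.2])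
      calc |f (x + t) - f (y + t)| ≤ K * (y + t - (x + t)) := this
        _ = K * (y - x) := by ring
    have h4 := intervalIntegral.norm_integral_le_of_norm_le_const h3
    have h5 : ∀ t ∈ uIoc (b - y) (b - x), ‖κ t * f (x + t)‖ ≤ K2 * K := by
      intro t ht
      rw [uIoc_of_le (by linarith)] at ht
      rw [norm_mul, Real.norm_eq_abs, Real.norm_eq_abs]
      exact mul_le_mul (hK2 t (by linarith [ht.1]) (by linarith [ht.2])) (hf.bd _ (by linarith [ht.1]) (by linarith [ht.2]))
        (abs_nonneg _) hK20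
    have h6 := intervalIntegral.norm_integral_le_of_norm_le_const h5
    rw [Real.norm_eq_abs, sub_zero, abs_of_nonneg (by linarith : 0 ≤ b - y)] at h4
    rw [Real.norm_eq_abs, abs_of_nonneg (by linarith : 0 ≤ b - x - (b - y))] at h6
    rw [e]
    refine (abs_add_le _ _).trans ((add_le_add h4 h6).trans ?_)
    have h7 : K2 * (K * (y - x)) * (b - y) ≤ K2 * (K * (y - x)) * B :=
      mul_le_mul_of_nonneg_left (by linarith) (mul_nonneg hK20 (mul_nonneg hK (by linarith)))
    calc K2 * (K * (y - x)) * (b - y) + K2 * K * (b - x - (b - y)) ≤ K2 * (K * (y - x)) * B + K2 * K * (y - x) := by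
          have : b - x - (b - y) = y - x := by ring
          rw [this]
          linarith
      _ = K2 * (B + 1) * K * (y - x) := by ring

/-- **Convolution with the Lebesgue measure.** -/
theorem Tst.conv {ι ι' : Type*} {S : Finset ι} {S' : Finset ι'} {w l : ι → ℝ} {w' l' : ι' → ℝ} {κ : ℝ → ℝ} {B η η' K2 : ℝ}
    (h : Tst S w l (fun _ => 1) B η) (h' : Tst S' w' l' κ B η') (hκ : Continuous κ)
    (hK2 : ∀ x, 0 ≤ x → x ≤ B → |κ x| ≤ K2) (hw : ∀ i ∈ S, 0 ≤ w i) (hl : ∀ i ∈ S, 0 ≤ l i) (hl' : ∀ i ∈ S', 0 ≤ l' i)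
    (hη' : 0 ≤ η') {b K : ℝ} {f : ℝ → ℝ} (hb : 0 ≤ b) (hbB : b ≤ B) (hf : TFK K b f) :
    |∑ i ∈ S, ∑ j ∈ S', (if l i + l' j ≤ b then w i * w' j * f (l i + l' j) else 0) -
      ∫ u in (0:ℝ)..b, (∫ t in (0:ℝ)..u, κ t) * f u| ≤ (η' * (B + η) + η * (K2 * (B + 1))) * K := by
  have hK := hf.nonneg hb
  set g : ℝ → ℝ := fun x => ∫ y in (0:ℝ)..(b - x), κ y * f (x + y) with hg
  have hgT : TFK (K2 * (B + 1) * K) b g := hf.inner hb hbB hκ hK2
  have h1 := h b hb hbB _ g hgT
  have h2 : ∫ x in (0:ℝ)..b, 1 * g x = ∫ u in (0:ℝ)..b, (∫ t in (0:ℝ)..u, κ t) * f u := by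
    simp only [one_mul]
    exact tri77 hb hκ hf.cont
  rw [h2] at h1
  have h3 : |∑ i ∈ S, ∑ j ∈ S', (if l i + l' j ≤ b then w i * w' j * f (l i + l' j) else 0) -
      ∑ i ∈ S, (if l i ≤ b then w i * g (l i) else 0)| ≤ η' * (B + η) * K := by
    rw [← Finset.sum_sub_distrib]
    have h4 : ∀ i ∈ S, |∑ j ∈ S', (if l i + l' j ≤ b then w i * w' j * f (l i + l' j) else 0) -
        (if l i ≤ b then w i * g (l i) else 0)| ≤ (if l i ≤ b then w i else 0) * (η' * K) := by
      intro i hi
      split_ifs with hib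
      · have h5 := h' (b - l i) (by linarith) (by linarith [hl i hi]) K _ (hf.shift (hl i hi))
        have h6 : ∑ j ∈ S', (if l i + l' j ≤ b then w i * w' j * f (l i + l' j) else 0) =
            w i * ∑ j ∈ S', (if l' j ≤ b - l i then w' j * f (l i + l' j) else 0) := by
          rw [Finset.mul_sum]
          refine Finset.sum_congr rfl fun j _ => ?_
          have h7 : l i + l' j ≤ b ↔ l' j ≤ b - l i := by constructor <;> intro h8 <;> linarith
          by_cases h8 : l' j ≤ b - l i
          · rw [if_pos h8, if_pos (h7.2 h8)]; ring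
          · rw [if_neg h8, if_neg (fun h9 => h8 (h7.1 h9)), mul_zero]
        rw [h6, ← mul_sub, abs_mul, abs_of_nonneg (hw i hi)]
        exact mul_le_mul_of_nonneg_left h5 (hw i hi)
      · have h6 : ∑ j ∈ S', (if l i + l' j ≤ b then w i * w' j * f (l i + l' j) else 0) = 0 :=
          Finset.sum_eq_zero fun j hj => if_neg (fun h7 => hib (by linarith [hl' j hj]))
        rw [h6]
        simp
    refine (Finset.abs_sum_le_sum_abs _ _).trans ((Finset.sum_le_sum h4).trans ?_)
    rw [← Finset.sum_mul]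
    have h5 := h.mass hb hbB
    have h6 : ∑ n ∈ S, (if l n ≤ b then w n else 0) ≤ B + η := by
      have h7 := (abs_le.1 h5).2
      have h8 : ∫ x in (0:ℝ)..b, (1:ℝ) = b := by simp
      rw [h8] at h7
      linarith
    calc (∑ n ∈ S, (if l n ≤ b then w n else 0)) * (η' * K) ≤ (B + η) * (η' * K) :=
          mul_le_mul_of_nonneg_right h6 (mul_nonneg hη' hK)
      _ = η' * (B + η) * K := by ring
  calc _ ≤ |∑ i ∈ S, ∑ j ∈ S', (if l i + l' j ≤ b then w i * w' j * f (l i + l' j) else 0) -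
      ∑ i ∈ S, (if l i ≤ b then w i * g (l i) else 0)| + |∑ i ∈ S, (if l i ≤ b then w i * g (l i) else 0) -
        ∫ u in (0:ℝ)..b, (∫ t in (0:ℝ)..u, κ t) * f u| := abs_sub_le _ _ _
    _ ≤ η' * (B + η) * K + η * (K2 * (B + 1) * K) := add_le_add h3 h1
    _ = _ := by ring

end Pool.Agent.Helper77.HG
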