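import Pool.Agent.Helper34.HO.Fund
import Pool.Agent.Helper34.HO.Rough
import Pool.Agent.Helper77.HG.Test

/-!
# HG (MP_8958e8), BRO part 1: sums of Lipschitz functions over the rough numbers, from the fundamental lemma
-/

set_option autoImplicit false

open MeasureTheory Set Filter Topology
open Pool.Agent.Helper34.HO

namespace Pool.Agent.Helper77.HG

/-- the rough numbers `< e^A` -/
noncomputable def Rr77 (z A : ℝ) : Finset ℕ := (Finset.range ⌈Real.exp A⌉₊).filter (Rough z)

theorem mem_Rr77 {z A : ℝ} {n : ℕ} : n ∈ Rr77 z A ↔ (n : ℝ) < Real.exp A ∧ Rough z n := by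
  unfold Rr77
  rw [Finset.mem_filter, Finset.mem_range, Nat.lt_ceil]

theorem mem_Rw77 {z a h : ℝ} {n : ℕ} : n ∈ Rw z a h ↔ (n : ℝ) < Real.exp (a + h) ∧ Real.exp a ≤ n ∧ Rough z n := by
  unfold Rw
  rw [Finset.mem_filter, Finset.mem_range, Nat.lt_ceil]

theorem mem_Rd77 {z b : ℝ} {n : ℕ} : n ∈ Rd z b ↔ (n : ℝ) ≤ Real.exp b ∧ Rough z n := by
  unfold Rd
  rw [Finset.mem_filter, Finset.mem_Icc, Nat.le_floor_iff (Real.exp_pos b).le]
  constructor
  · rintro ⟨⟨_, h2⟩, h3⟩
    exact ⟨h2, h3⟩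
  · rintro ⟨h2, h3⟩
    exact ⟨⟨h3.1, h2⟩, h3⟩

theorem Rr_add77 (z A : ℝ) {h : ℝ} (hh : 0 ≤ h) (φ : ℕ → ℝ) :
    ∑ n ∈ Rr77 z (A + h), φ n = ∑ n ∈ Rr77 z A, φ n + ∑ n ∈ Rw z A h, φ n := by
  classical
  rw [← Finset.sum_union]
  · refine Finset.sum_congr ?_ fun _ _ => rfl
    ext n
    rw [Finset.mem_union, mem_Rr77, mem_Rr77, mem_Rw77]
    constructor
    · rintro ⟨h1, h2⟩
      rcases lt_or_ge (n : ℝ) (Real.exp A) with h3 | h3
      · exact Or.inl ⟨h3, h2⟩
      · exact Or.inr ⟨h1, h3, h2⟩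
    · rintro (⟨h1, h2⟩ | ⟨h1, h2, h3⟩)
      · exact ⟨h1.trans_le (Real.exp_le_exp.2 (by linarith)), h2⟩
      · exact ⟨h1, h3⟩
  · rw [Finset.disjoint_left]
    intro n h1 h2
    rw [mem_Rr77] at h1
    rw [mem_Rw77] at h2
    linarith [h1.1, h2.2.1]

theorem Vz_pos77 (z : ℝ) : 0 < Vz z := Pool.Agent.PW.VV_pos z

/-- the mass of a window -/
theorem win_mass77 {s : ℕ} {e z₀ z a h : ℝ} (hFL : FL s e z₀) (hz0 : z₀ ≤ z) (hz2 : 2 ≤ z) (he1 : e ≤ 1) (hh : 0 < h)
    (hh1 : h ≤ 1) (hzh : 1 ≤ z * h) (ha : (s + 2) * Real.log z ≤ a) :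
    |∑ n ∈ Rw z a h, 1 / (n : ℝ) - Vz z * h| ≤ (e + 2 * h) * (Vz z * h) := by
  have hz : 0 < z := by linarith
  have hV := Vz_pos77 z
  have hlen : z ^ (s + 1) ≤ Real.exp (a + h) - Real.exp a := by
    have h1 : Real.exp ((s + 2) * Real.log z) = z ^ (s + 2) := by
      rw [mul_comm, Real.exp_mul, Real.exp_log hz]
      exact_mod_cast Real.rpow_natCast z (s + 2)
    have h2 : z ^ (s + 2) ≤ Real.exp a := by rw [← h1]; exact Real.exp_le_exp.2 ha
    have h3 : h ≤ Real.exp h - 1 := by linarith [Real.add_one_le_exp h]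
    calc z ^ (s + 1) = z ^ (s + 1) * 1 := (mul_one _).symm
      _ ≤ z ^ (s + 1) * (z * h) := mul_le_mul_of_nonneg_left hzh (by positivity)
      _ = z ^ (s + 2) * h := by ring
      _ ≤ Real.exp a * (Real.exp h - 1) := mul_le_mul h2 h3 hh.le (Real.exp_pos a).le
      _ = Real.exp (a + h) - Real.exp a := by rw [Real.exp_add]; ring
  have hF := hFL z hz0 a h hh.le hlen
  have he0 : 0 ≤ e := by
    have h1 : 0 < Vz z * (Real.exp (a + h) - Real.exp a) :=
      mul_pos hV (sub_pos.2 (Real.exp_lt_exp.2 (by linarith)))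
    by_contra h2
    have h3 := (abs_nonneg _).trans hF
    nlinarith
  have hexp := Real.abs_exp_sub_one_sub_id_le (x := h) (by rw [abs_of_pos hh]; exact hh1)
  have hexp' := Real.abs_exp_sub_one_sub_id_le (x := -h) (by rw [abs_neg, abs_of_pos hh]; exact hh1)
  have hea := Real.exp_pos a
  have h6 : Real.exp (a + h) - Real.exp a = Real.exp a * (Real.exp h - 1) := by rw [Real.exp_add]; ring
  have hup : ∑ n ∈ Rw z a h, 1 / (n : ℝ) ≤ (1 + e) * Vz z * (Real.exp h - 1) := by
    calc ∑ n ∈ Rw z a h, 1 / (n : ℝ) ≤ ∑ n ∈ Rw z a h, Real.exp (-a) := by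
          refine Finset.sum_le_sum fun n hn => ?_
          rw [mem_Rw77] at hn
          rw [Real.exp_neg, ← one_div]
          exact one_div_le_one_div_of_le hea hn.2.1
      _ = (Rw z a h).card * Real.exp (-a) := by rw [Finset.sum_const, nsmul_eq_mul]
      _ ≤ ((1 + e) * (Vz z * (Real.exp (a + h) - Real.exp a))) * Real.exp (-a) := by
          refine mul_le_mul_of_nonneg_right ?_ (Real.exp_pos _).le
          have := (abs_le.1 hF).2
          linarith
      _ = (1 + e) * Vz z * (Real.exp h - 1) := by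
          rw [h6, Real.exp_neg]
          field_simp
  have hlo : (1 - e) * Vz z * (1 - Real.exp (-h)) ≤ ∑ n ∈ Rw z a h, 1 / (n : ℝ) := by
    calc (1 - e) * Vz z * (1 - Real.exp (-h)) =
        ((1 - e) * (Vz z * (Real.exp (a + h) - Real.exp a))) * Real.exp (-(a + h)) := by
          rw [h6, neg_add, Real.exp_add, Real.exp_neg a]
          have h7 : Real.exp h * Real.exp (-h) = 1 := by rw [← Real.exp_add]; simp
          field_simp
          linear_combination (-(1 - e)) * h7
      _ ≤ (Rw z a h).card * Real.exp (-(a + h)) := by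
          refine mul_le_mul_of_nonneg_right ?_ (Real.exp_pos _).le
          have := (abs_le.1 hF).1
          linarith
      _ = ∑ n ∈ Rw z a h, Real.exp (-(a + h)) := by rw [Finset.sum_const, nsmul_eq_mul]
      _ ≤ ∑ n ∈ Rw z a h, 1 / (n : ℝ) := by
          refine Finset.sum_le_sum fun n hn => ?_
          rw [mem_Rw77] at hn
          rw [Real.exp_neg, ← one_div]
          exact one_div_le_one_div_of_le (hea.trans_le hn.2.1) hn.1.le
  have hx1 : Real.exp h - 1 ≤ h + h ^ 2 := by linarith [(abs_le.1 hexp).2]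
  have hx2 : h - h ^ 2 ≤ 1 - Real.exp (-h) := by
    have := (abs_le.1 hexp').2
    nlinarith
  rw [abs_le]
  constructor
  · have h8 : (1 - e) * Vz z * (h - h ^ 2) ≤ (1 - e) * Vz z * (1 - Real.exp (-h)) :=
      mul_le_mul_of_nonneg_left hx2 (mul_nonneg (by linarith) hV.le)
    have h9 : Vz z * h - (e + 2 * h) * (Vz z * h) ≤ (1 - e) * Vz z * (h - h ^ 2) := by
      have : (1 - e) * Vz z * (h - h ^ 2) - (Vz z * h - (e + 2 * h) * (Vz z * h)) = Vz z * h * (h + e * h) := by ring
      have h10 : 0 ≤ Vz z * h * (h + e * h) := by positivity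
      linarith
    linarith
  · have h8 : (1 + e) * Vz z * (Real.exp h - 1) ≤ (1 + e) * Vz z * (h + h ^ 2) :=
      mul_le_mul_of_nonneg_left hx1 (mul_nonneg (by linarith) hV.le)
    have h9 : (1 + e) * Vz z * (h + h ^ 2) ≤ Vz z * h + (e + 2 * h) * (Vz z * h) := by
      have : Vz z * h + (e + 2 * h) * (Vz z * h) - (1 + e) * Vz z * (h + h ^ 2) = Vz z * h * (h * (1 - e)) := by ring
      have h10 : 0 ≤ Vz z * h * (h * (1 - e)) := mul_nonneg (by positivity) (mul_nonneg hh.le (by linarith))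
      linarith
    linarith

/-- the sum over a window -/
theorem win_sum77 {s : ℕ} {e z₀ z a h L b K : ℝ} {f : ℝ → ℝ} (hFL : FL s e z₀) (hz0 : z₀ ≤ z) (hz2 : 2 ≤ z)
    (he1 : e ≤ 1) (hh : 0 < h) (hh1 : h ≤ 1) (hzh : 1 ≤ z * h) (ha : (s + 2) * Real.log z ≤ a) (hL : 0 < L)
    (hab : a + h ≤ b * L) (hf : TFK K b f) :
    |∑ n ∈ Rw z a h, f (Real.log n / L) / n - Vz z * L * ∫ x in (a / L)..((a + h) / L), f x| ≤
      (e + 2 * h + 5 * h / L) * (Vz z * h) * K := by
  have hM := win_mass77 hFL hz0 hz2 he1 hh hh1 hzh ha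
  have hV := Vz_pos77 z
  have ha0 : 0 ≤ a := le_trans (mul_nonneg (by positivity) (Real.log_nonneg (by linarith))) ha
  have hb : 0 ≤ b := by
    by_contra h1
    have : b * L < 0 := mul_neg_of_neg_of_pos (not_le.1 h1) hL
    linarith
  have hK := hf.nonneg hb
  set M := ∑ n ∈ Rw z a h, 1 / (n : ℝ) with hMdef
  have hM0 : 0 ≤ M := Finset.sum_nonneg fun n _ => by positivity
  have haL : 0 ≤ a / L := by positivity
  have habL : (a + h) / L ≤ b := by rw [div_le_iff₀ hL]; exact hab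
  have hahL : a / L ≤ (a + h) / L := by gcongr; linarith
  have h1 : |∑ n ∈ Rw z a h, f (Real.log n / L) / n - f (a / L) * M| ≤ K * (h / L) * M := by
    rw [hMdef, Finset.mul_sum, Finset.mul_sum, ← Finset.sum_sub_distrib]
    refine (Finset.abs_sum_le_sum_abs _ _).trans (Finset.sum_le_sum fun n hn => ?_)
    rw [mem_Rw77] at hn
    have hn0 : (0:ℝ) < n := (Real.exp_pos a).trans_le hn.2.1
    have h2 : a ≤ Real.log n := by rw [Real.le_log_iff_exp_le hn0]; exact hn.2.1
    have h3 : Real.log n < a + h := by rw [Real.log_lt_iff_lt_exp hn0]; exact hn.1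
    have h4 : a / L ≤ Real.log n / L := by gcongr
    have h5 : Real.log n / L ≤ (a + h) / L := by gcongr
    have h6 := hf.lip (a / L) (Real.log n / L) haL h4 (h5.trans habL)
    have h7 : f (Real.log n / L) / n - f (a / L) * (1 / n) = -(f (a / L) - f (Real.log n / L)) * (1 / n) := by ring
    rw [h7, abs_mul, abs_neg, abs_of_pos (by positivity : (0:ℝ) < 1 / n)]
    refine mul_le_mul_of_nonneg_right (h6.trans (mul_le_mul_of_nonneg_left ?_ hK)) (by positivity)
    calc Real.log n / L - a / L ≤ (a + h) / L - a / L := by linarith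
      _ = h / L := by ring
  have h2 : |f (a / L) * M - f (a / L) * (Vz z * h)| ≤ K * ((e + 2 * h) * (Vz z * h)) := by
    rw [← mul_sub, abs_mul]
    exact mul_le_mul (hf.bd _ haL (hahL.trans habL)) hM (abs_nonneg _) hK
  have h3 : |f (a / L) * (Vz z * h) - Vz z * L * ∫ x in (a / L)..((a + h) / L), f x| ≤ Vz z * h * (K * (h / L)) := by
    have h4 : f (a / L) * (Vz z * h) = Vz z * L * ∫ x in (a / L)..((a + h) / L), f (a / L) := by
      rw [intervalIntegral.integral_const, smul_eq_mul]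
      field_simp
      ring
    have h5 : |∫ x in (a / L)..((a + h) / L), (f (a / L) - f x)| ≤ K * (h / L) * (h / L) := by
      have h6 : ∀ x ∈ uIoc (a / L) ((a + h) / L), ‖f (a / L) - f x‖ ≤ K * (h / L) := by
        intro x hx
        rw [uIoc_of_le hahL] at hx
        rw [Real.norm_eq_abs]
        refine (hf.lip _ _ haL hx.1.le (hx.2.trans habL)).trans (mul_le_mul_of_nonneg_left ?_ hK)
        calc x - a / L ≤ (a + h) / L - a / L := by linarith [hx.2]
          _ = h / L := by ring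
      have h7 := intervalIntegral.norm_integral_le_of_norm_le_const h6
      rw [Real.norm_eq_abs] at h7
      refine h7.trans (le_of_eq ?_)
      have : (a + h) / L - a / L = h / L := by ring
      rw [this, abs_of_pos (by positivity)]
    rw [h4, ← mul_sub, ← intervalIntegral.integral_sub (intervalIntegrable_const) (hf.cont.intervalIntegrable _ _), abs_mul,
      abs_of_pos (by positivity : 0 < Vz z * L)]
    calc Vz z * L * |∫ x in (a / L)..((a + h) / L), (f (a / L) - f x)| ≤ Vz z * L * (K * (h / L) * (h / L)) :=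
          mul_le_mul_of_nonneg_left h5 (by positivity)
      _ = Vz z * h * (K * (h / L)) := by field_simp
  have hMle : M ≤ 4 * (Vz z * h) := by
    have h4 := (abs_le.1 hM).2
    have h5 : (e + 2 * h) * (Vz z * h) ≤ 3 * (Vz z * h) := mul_le_mul_of_nonneg_right (by linarith) (by positivity)
    linarith
  have h4 : K * (h / L) * M ≤ K * (h / L) * (4 * (Vz z * h)) := mul_le_mul_of_nonneg_left hMle (by positivity)
  calc _ ≤ |∑ n ∈ Rw z a h, f (Real.log n / L) / n - f (a / L) * M| + |f (a / L) * M - f (a / L) * (Vz z * h)| +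
        |f (a / L) * (Vz z * h) - Vz z * L * ∫ x in (a / L)..((a + h) / L), f x| := by
        refine (abs_sub_le _ (f (a / L) * (Vz z * h)) _).trans (add_le_add_left (abs_sub_le _ _ _) _)
    _ ≤ K * (h / L) * (4 * (Vz z * h)) + K * ((e + 2 * h) * (Vz z * h)) + Vz z * h * (K * (h / L)) :=
        add_le_add (add_le_add (h1.trans h4) h2) h3
    _ = _ := by ring

/-- `J` windows -/
theorem win_J77 {s : ℕ} {e z₀ z h L b K : ℝ} {f : ℝ → ℝ} (hFL : FL s e z₀) (hz0 : z₀ ≤ z) (hz2 : 2 ≤ z)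
    (he1 : e ≤ 1) (hh : 0 < h) (hh1 : h ≤ 1) (hzh : 1 ≤ z * h) (hL : 0 < L) (hf : TFK K b f) (J : ℕ)
    (hJ : (s + 2) * Real.log z + J * h ≤ b * L) :
    |∑ n ∈ Rr77 z ((s + 2) * Real.log z + J * h), f (Real.log n / L) / n -
      ∑ n ∈ Rr77 z ((s + 2) * Real.log z), f (Real.log n / L) / n -
      Vz z * L * ∫ x in (((s + 2) * Real.log z) / L)..(((s + 2) * Real.log z + J * h) / L), f x| ≤
      J * ((e + 2 * h + 5 * h / L) * (Vz z * h) * K) := by
  induction J with
  | zero => simp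
  | succ J ih =>
    set a0 := ((s:ℝ) + 2) * Real.log z with ha0
    have e1 : a0 + ((J + 1 : ℕ) : ℝ) * h = (a0 + J * h) + h := by push_cast; ring
    rw [e1] at hJ ⊢
    have ih' := ih (by linarith)
    have h1 := win_sum77 (f := f) (a := a0 + J * h) hFL hz0 hz2 he1 hh hh1 hzh
      (by rw [← ha0]; have : 0 ≤ (J:ℝ) * h := by positivity
          linarith) hL hJ hf
    rw [Rr_add77 z (a0 + J * h) hh.le]
    have h2 : ∫ x in (a0 / L)..((a0 + J * h + h) / L), f x = (∫ x in (a0 / L)..((a0 + J * h) / L), f x) +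
        ∫ x in ((a0 + J * h) / L)..((a0 + J * h + h) / L), f x :=
      (intervalIntegral.integral_add_adjacent_intervals (hf.cont.intervalIntegrable _ _) (hf.cont.intervalIntegrable _ _)).symm
    rw [h2]
    have h3 : ∑ n ∈ Rr77 z (a0 + J * h), f (Real.log n / L) / n + ∑ n ∈ Rw z (a0 + J * h) h, f (Real.log n / L) / n -
        ∑ n ∈ Rr77 z a0, f (Real.log n / L) / n - Vz z * L * ((∫ x in (a0 / L)..((a0 + J * h) / L), f x) +
        ∫ x in ((a0 + J * h) / L)..((a0 + J * h + h) / L), f x) =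
        (∑ n ∈ Rr77 z (a0 + J * h), f (Real.log n / L) / n - ∑ n ∈ Rr77 z a0, f (Real.log n / L) / n -
          Vz z * L * ∫ x in (a0 / L)..((a0 + J * h) / L), f x) + (∑ n ∈ Rw z (a0 + J * h) h, f (Real.log n / L) / n -
          Vz z * L * ∫ x in ((a0 + J * h) / L)..((a0 + J * h + h) / L), f x) := by ring
    rw [h3]
    refine (abs_add_le _ _).trans ((add_le_add ih' h1).trans (le_of_eq ?_))
    push_cast
    ring

/-- **The one-variable sum**, explicit. -/
theorem core77 {s : ℕ} {e z₀ C z h L b K : ℝ} {f : ℝ → ℝ} (hFL : FL s e z₀) (hz0 : z₀ ≤ z) (hz2 : 2 ≤ z) (he0 : 0 ≤ e)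
    (he1 : e ≤ 1) (hh : 0 < h) (hh1 : h ≤ 1) (hzh : 1 ≤ z * h) (hL : 0 < L)
    (hC : ∀ b : ℝ, Real.log z ≤ b → ∑ d ∈ Rd z b, 1 / (d : ℝ) ≤ C * (b / Real.log z)) (hb : 0 ≤ b) (hf : TFK K b f) :
    |∑ n ∈ Rd z (b * L), f (Real.log n / L) / n - Vz z * L * ∫ x in (0:ℝ)..b, f x| ≤
      (Vz z * L * b * (e + 2 * h + 5 * h / L) + 5 * (Vz z * h) + C * (s + 2) + Vz z * ((s + 2) * Real.log z)) * K := by
  have hV := Vz_pos77 z
  have hK := hf.nonneg hb
  have hlz : 0 < Real.log z := Real.log_pos (by linarith)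
  set a0 := ((s:ℝ) + 2) * Real.log z with ha0
  have ha00 : 0 < a0 := by positivity
  have hinit : ∑ d ∈ Rd z a0, 1 / (d : ℝ) ≤ C * (s + 2) := by
    refine (hC a0 ?_).trans (le_of_eq ?_)
    · rw [ha0]
      have : (0:ℝ) ≤ (s:ℝ) := Nat.cast_nonneg s
      nlinarith
    · rw [ha0]
      field_simp
  have hC0 : 0 ≤ C * (s + 2) := le_trans (Finset.sum_nonneg fun n _ => by positivity) hinit
  -- pointwise bound
  have hpt : ∀ n : ℕ, Rough z n → (n : ℝ) ≤ Real.exp (b * L) → |f (Real.log n / L) / n| ≤ K * (1 / (n : ℝ)) := by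
    intro n hn hnb
    have hn0 : (0:ℝ) < n := by exact_mod_cast hn.1
    have hn1 : (1:ℝ) ≤ n := by exact_mod_cast hn.1
    rw [abs_div, abs_of_pos hn0, div_eq_mul_one_div]
    refine mul_le_mul_of_nonneg_right (hf.bd _ (div_nonneg (Real.log_nonneg hn1) hL.le) ?_) (by positivity)
    rw [div_le_iff₀ hL, Real.log_le_iff_le_exp hn0]
    exact hnb
  rcases lt_or_ge (b * L) a0 with hcase | hcase
  · -- everything is in the initial part
    have h1 : |∑ n ∈ Rd z (b * L), f (Real.log n / L) / n| ≤ K * (C * (s + 2)) := by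
      calc |∑ n ∈ Rd z (b * L), f (Real.log n / L) / n| ≤ ∑ n ∈ Rd z (b * L), K * (1 / (n : ℝ)) := by
            refine (Finset.abs_sum_le_sum_abs _ _).trans (Finset.sum_le_sum fun n hn => ?_)
            rw [mem_Rd77] at hn
            exact hpt n hn.2 hn.1
        _ ≤ ∑ n ∈ Rd z a0, K * (1 / (n : ℝ)) := by
            refine Finset.sum_le_sum_of_subset_of_nonneg (fun n hn => ?_) fun n _ _ => by positivity
            rw [mem_Rd77] at hn ⊢
            exact ⟨hn.1.trans (Real.exp_le_exp.2 hcase.le), hn.2⟩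
        _ = K * ∑ n ∈ Rd z a0, (1 / (n : ℝ)) := by rw [Finset.mul_sum]
        _ ≤ K * (C * (s + 2)) := mul_le_mul_of_nonneg_left hinit hK
    have h2 : |Vz z * L * ∫ x in (0:ℝ)..b, f x| ≤ Vz z * a0 * K := by
      have h3 : ∀ x ∈ uIoc (0:ℝ) b, ‖f x‖ ≤ K := fun x hx => by
        rw [uIoc_of_le hb] at hx
        exact hf.bd x hx.1.le hx.2
      have h4 := intervalIntegral.norm_integral_le_of_norm_le_const h3
      rw [Real.norm_eq_abs, sub_zero, abs_of_nonneg hb] at h4
      rw [abs_mul, abs_of_pos (by positivity : 0 < Vz z * L)]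
      calc Vz z * L * |∫ x in (0:ℝ)..b, f x| ≤ Vz z * L * (K * b) := mul_le_mul_of_nonneg_left h4 (by positivity)
        _ = Vz z * K * (b * L) := by ring
        _ ≤ Vz z * K * a0 := mul_le_mul_of_nonneg_left hcase.le (by positivity)
        _ = _ := by ring
    have h5 : 0 ≤ (Vz z * L * b * (e + 2 * h + 5 * h / L) + 5 * (Vz z * h)) * K := by positivity
    calc _ ≤ |∑ n ∈ Rd z (b * L), f (Real.log n / L) / n| + |Vz z * L * ∫ x in (0:ℝ)..b, f x| := abs_sub _ _
      _ ≤ K * (C * (s + 2)) + Vz z * a0 * K := add_le_add h1 h2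
      _ ≤ _ := by linarith
  · -- windows
    set J : ℕ := ⌊(b * L - a0) / h⌋₊ with hJdef
    have hJ1 : a0 + J * h ≤ b * L := by
      have h1 : (J : ℝ) ≤ (b * L - a0) / h := Nat.floor_le (div_nonneg (by linarith) hh.le)
      rw [le_div_iff₀ hh] at h1
      linarith
    have hJ2 : b * L < a0 + J * h + h := by
      have h1 : (b * L - a0) / h < J + 1 := Nat.lt_floor_add_one _
      rw [div_lt_iff₀ hh] at h1
      linarith
    have h1 := win_J77 hFL hz0 hz2 he1 hh hh1 hzh hL hf J (by rw [← ha0]; exact hJ1)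
    rw [← ha0] at h1
    -- the decomposition
    have e1 : ∑ n ∈ Rd z (b * L), f (Real.log n / L) / n = ∑ n ∈ Rr77 z (a0 + J * h), f (Real.log n / L) / n +
        ∑ n ∈ (Rd z (b * L)).filter (fun n : ℕ => Real.exp (a0 + J * h) ≤ n), f (Real.log n / L) / n := by
      classical
      rw [← Finset.sum_union]
      · refine Finset.sum_congr ?_ fun _ _ => rfl
        ext n
        rw [Finset.mem_union, Finset.mem_filter, mem_Rr77, mem_Rd77]
        constructor
        · rintro ⟨h2, h3⟩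
          rcases lt_or_ge (n : ℝ) (Real.exp (a0 + J * h)) with h4 | h4
          · exact Or.inl ⟨h4, h3⟩
          · exact Or.inr ⟨⟨h2, h3⟩, h4⟩
        · rintro (⟨h2, h3⟩ | ⟨⟨h2, h3⟩, h4⟩)
          · exact ⟨h2.le.trans (Real.exp_le_exp.2 hJ1), h3⟩
          · exact ⟨h2, h3⟩
      · rw [Finset.disjoint_left]
        intro n h2 h3
        rw [mem_Rr77] at h2
        rw [Finset.mem_filter] at h3
        linarith [h2.1, h3.2]
    have hlast : |∑ n ∈ (Rd z (b * L)).filter (fun n : ℕ => Real.exp (a0 + J * h) ≤ n), f (Real.log n / L) / n| ≤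
        K * (4 * (Vz z * h)) := by
      have hM := win_mass77 (a := a0 + J * h) hFL hz0 hz2 he1 hh hh1 hzh
        (by rw [← ha0]; have : 0 ≤ (J:ℝ) * h := by positivity
            linarith)
      have h5 : (e + 2 * h) * (Vz z * h) ≤ 3 * (Vz z * h) := mul_le_mul_of_nonneg_right (by linarith) (by positivity)
      calc _ ≤ ∑ n ∈ (Rd z (b * L)).filter (fun n : ℕ => Real.exp (a0 + J * h) ≤ n), K * (1 / (n : ℝ)) := by
            refine (Finset.abs_sum_le_sum_abs _ _).trans (Finset.sum_le_sum fun n hn => ?_)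
            rw [Finset.mem_filter, mem_Rd77] at hn
            exact hpt n hn.1.2 hn.1.1
        _ ≤ ∑ n ∈ Rw z (a0 + J * h) h, K * (1 / (n : ℝ)) := by
            refine Finset.sum_le_sum_of_subset_of_nonneg (fun n hn => ?_) fun n _ _ => by positivity
            rw [Finset.mem_filter, mem_Rd77] at hn
            rw [mem_Rw77]
            exact ⟨hn.1.1.trans_lt (Real.exp_lt_exp.2 hJ2), hn.2, hn.1.2⟩
        _ = K * ∑ n ∈ Rw z (a0 + J * h) h, (1 / (n : ℝ)) := by rw [Finset.mul_sum]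
        _ ≤ K * (4 * (Vz z * h)) := by
            refine mul_le_mul_of_nonneg_left ?_ hK
            linarith [(abs_le.1 hM).2]
    have hfirst : |∑ n ∈ Rr77 z a0, f (Real.log n / L) / n| ≤ K * (C * (s + 2)) := by
      calc _ ≤ ∑ n ∈ Rr77 z a0, K * (1 / (n : ℝ)) := by
            refine (Finset.abs_sum_le_sum_abs _ _).trans (Finset.sum_le_sum fun n hn => ?_)
            rw [mem_Rr77] at hn
            exact hpt n hn.2 (hn.1.le.trans (Real.exp_le_exp.2 hcase))
        _ ≤ ∑ n ∈ Rd z a0, K * (1 / (n : ℝ)) := by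
            refine Finset.sum_le_sum_of_subset_of_nonneg (fun n hn => ?_) fun n _ _ => by positivity
            rw [mem_Rr77] at hn
            rw [mem_Rd77]
            exact ⟨hn.1.le, hn.2⟩
        _ = K * ∑ n ∈ Rd z a0, (1 / (n : ℝ)) := by rw [Finset.mul_sum]
        _ ≤ K * (C * (s + 2)) := mul_le_mul_of_nonneg_left hinit hK
    have hi := fun u v : ℝ => hf.cont.intervalIntegrable (μ := volume) u v
    have e2 : ∫ x in (0:ℝ)..b, f x = (∫ x in (0:ℝ)..(a0 / L), f x) + (∫ x in (a0 / L)..((a0 + J * h) / L), f x) +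
        ∫ x in ((a0 + J * h) / L)..b, f x := by
      rw [intervalIntegral.integral_add_adjacent_intervals (hi _ _) (hi _ _),
        intervalIntegral.integral_add_adjacent_intervals (hi _ _) (hi _ _)]
    have ha0b : a0 / L ≤ b := by rw [div_le_iff₀ hL]; exact hcase
    have hJb : (a0 + J * h) / L ≤ b := by rw [div_le_iff₀ hL]; exact hJ1
    have hJ0 : 0 ≤ (a0 + J * h) / L := by positivity
    have hA : |Vz z * L * ∫ x in (0:ℝ)..(a0 / L), f x| ≤ Vz z * a0 * K := by
      have h3 : ∀ x ∈ uIoc (0:ℝ) (a0 / L), ‖f x‖ ≤ K := fun x hx => by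
        rw [uIoc_of_le (by positivity)] at hx
        exact hf.bd x hx.1.le (hx.2.trans ha0b)
      have h4 := intervalIntegral.norm_integral_le_of_norm_le_const h3
      rw [Real.norm_eq_abs, sub_zero, abs_of_nonneg (by positivity : 0 ≤ a0 / L)] at h4
      rw [abs_mul, abs_of_pos (by positivity : 0 < Vz z * L)]
      calc Vz z * L * |∫ x in (0:ℝ)..(a0 / L), f x| ≤ Vz z * L * (K * (a0 / L)) :=
            mul_le_mul_of_nonneg_left h4 (by positivity)
        _ = Vz z * a0 * K := by field_simp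
    have hB : |Vz z * L * ∫ x in ((a0 + J * h) / L)..b, f x| ≤ Vz z * h * K := by
      have h3 : ∀ x ∈ uIoc ((a0 + J * h) / L) b, ‖f x‖ ≤ K := fun x hx => by
        rw [uIoc_of_le hJb] at hx
        exact hf.bd x (hJ0.trans hx.1.le) hx.2
      have h4 := intervalIntegral.norm_integral_le_of_norm_le_const h3
      rw [Real.norm_eq_abs, abs_of_nonneg (by linarith : 0 ≤ b - (a0 + J * h) / L)] at h4
      rw [abs_mul, abs_of_pos (by positivity : 0 < Vz z * L)]
      have h5 : L * (b - (a0 + J * h) / L) ≤ h := by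
        rw [mul_sub, mul_div_cancel₀ _ hL.ne']
        linarith
      calc Vz z * L * |∫ x in ((a0 + J * h) / L)..b, f x| ≤ Vz z * L * (K * (b - (a0 + J * h) / L)) :=
            mul_le_mul_of_nonneg_left h4 (by positivity)
        _ = Vz z * K * (L * (b - (a0 + J * h) / L)) := by ring
        _ ≤ Vz z * K * h := mul_le_mul_of_nonneg_left h5 (by positivity)
        _ = _ := by ring
    have hJe : J * ((e + 2 * h + 5 * h / L) * (Vz z * h) * K) ≤ Vz z * L * b * (e + 2 * h + 5 * h / L) * K := by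
      have h3 : (J:ℝ) * h ≤ b * L := by linarith
      calc J * ((e + 2 * h + 5 * h / L) * (Vz z * h) * K) = (J * h) * ((e + 2 * h + 5 * h / L) * Vz z * K) := by ring
        _ ≤ (b * L) * ((e + 2 * h + 5 * h / L) * Vz z * K) := mul_le_mul_of_nonneg_right h3 (by positivity)
        _ = _ := by ring
    rw [e1, e2]
    set S1 := ∑ n ∈ Rr77 z (a0 + J * h), f (Real.log n / L) / n
    set S2 := ∑ n ∈ (Rd z (b * L)).filter (fun n : ℕ => Real.exp (a0 + J * h) ≤ n), f (Real.log n / L) / n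
    set S0 := ∑ n ∈ Rr77 z a0, f (Real.log n / L) / n
    set I0 := ∫ x in (0:ℝ)..(a0 / L), f x
    set I1 := ∫ x in (a0 / L)..((a0 + J * h) / L), f x
    set I2 := ∫ x in ((a0 + J * h) / L)..b, f x
    have e3 : S1 + S2 - Vz z * L * (I0 + I1 + I2) = (S1 - S0 - Vz z * L * I1) + S2 + S0 - Vz z * L * I0 - Vz z * L * I2 := by ring
    rw [e3]
    refine (abs_sub _ _).trans ((add_le_add (abs_sub _ _) le_rfl).trans ?_)
    refine (add_le_add (add_le_add (abs_add_le _ _) le_rfl) le_rfl).trans ?_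
    refine (add_le_add (add_le_add (add_le_add (abs_add_le _ _) le_rfl) le_rfl) le_rfl).trans ?_
    linarith

end Pool.Agent.Helper77.HG
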