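import Pool.Agent.Helper25.HG.Defs
import Pool.Agent.Helper77.HG.Win

/-!
# HG (MP_8958e8), BRO part 1: the rough numbers in the scale `log n / log T`
-/

set_option autoImplicit false

open MeasureTheory Set Filter Topology
open Pool.Agent.Helper4.SH Pool.Agent.Helper69.PP Pool.Agent.Helper25.HG Pool.Agent.Helper34.HO

namespace Pool.Agent.Helper77.HG

open Classical in
/-- the numbers `≤ T^B` without prime factors below `T^ε` -/
noncomputable def RT (ε T B : ℝ) : Finset ℕ := (Finset.Icc 1 ⌊T ^ B⌋₊).filter (RF ε T)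

theorem RF_iff77 {ε T : ℝ} {n : ℕ} : RF ε T n ↔ Rough (T ^ ε) n := by
  unfold RF Rough
  constructor
  · rintro ⟨h1, h2⟩
    exact ⟨Nat.pos_of_ne_zero h1, fun p hp hpn => h2 p (Nat.mem_primeFactors.2 ⟨hp, hpn, h1⟩)⟩
  · rintro ⟨h1, h2⟩
    exact ⟨h1.ne', fun p hp => h2 p (Nat.prime_of_mem_primeFactors hp) (Nat.dvd_of_mem_primeFactors hp)⟩

theorem mem_RT77 {ε T B : ℝ} (hT : 0 ≤ T) {n : ℕ} : n ∈ RT ε T B ↔ (n : ℝ) ≤ T ^ B ∧ RF ε T n := by
  classical
  unfold RT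
  rw [Finset.mem_filter, Finset.mem_Icc, Nat.le_floor_iff (Real.rpow_nonneg hT B)]
  constructor
  · rintro ⟨⟨_, h2⟩, h3⟩
    exact ⟨h2, h3⟩
  · rintro ⟨h2, h3⟩
    exact ⟨⟨Nat.one_le_iff_ne_zero.2 h3.1, h2⟩, h3⟩

/-- membership through the size -/
theorem mem_RT_yy77 {ε T B : ℝ} (hT : 1 < T) {n : ℕ} : n ∈ RT ε T B ↔ yy T n ≤ B ∧ RF ε T n := by
  rw [mem_RT77 (by linarith)]
  have hL := Real.log_pos hT
  constructor
  · rintro ⟨h1, h2⟩
    have hn : (0:ℝ) < n := by exact_mod_cast Nat.pos_of_ne_zero h2.1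
    refine ⟨?_, h2⟩
    unfold yy
    rw [div_le_iff₀ hL, ← Real.log_rpow (by linarith)]
    exact Real.log_le_log hn h1
  · rintro ⟨h1, h2⟩
    have hn : (0:ℝ) < n := by exact_mod_cast Nat.pos_of_ne_zero h2.1
    refine ⟨?_, h2⟩
    unfold yy at h1
    rw [div_le_iff₀ hL, ← Real.log_rpow (by linarith)] at h1
    exact (Real.log_le_log_iff hn (Real.rpow_pos_of_pos (by linarith) _)).1 h1

theorem yy_nonneg77 {T : ℝ} (hT : 1 < T) (n : ℕ) : 0 ≤ yy T n := by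
  unfold yy
  exact div_nonneg (Real.log_natCast_nonneg n) (Real.log_pos hT).le

theorem yy_mul77 {T : ℝ} {m n : ℕ} (hm : m ≠ 0) (hn : n ≠ 0) : yy T (m * n) = yy T m + yy T n := by
  unfold yy
  rw [Nat.cast_mul, Real.log_mul (by exact_mod_cast hm) (by exact_mod_cast hn), add_div]

theorem RF_mul77 {ε T : ℝ} {m n : ℕ} (hm : m ≠ 0) (hn : n ≠ 0) : RF ε T (m * n) ↔ RF ε T m ∧ RF ε T n := by
  unfold RF
  rw [Nat.primeFactors_mul hm hn]
  constructor
  · rintro ⟨_, h2⟩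
    exact ⟨⟨hm, fun p hp => h2 p (Finset.mem_union_left _ hp)⟩, ⟨hn, fun p hp => h2 p (Finset.mem_union_right _ hp)⟩⟩
  · rintro ⟨⟨_, h2⟩, ⟨_, h4⟩⟩
    refine ⟨mul_ne_zero hm hn, fun p hp => ?_⟩
    rcases Finset.mem_union.1 hp with h | h
    · exact h2 p h
    · exact h4 p h

theorem rh_eq77 {ε T : ℝ} : rh ε T = Vz (T ^ ε) * Real.log T := rfl

theorem rh_pos77 {ε T : ℝ} (hT : 1 < T) : 0 < rh ε T := by
  rw [rh_eq77]
  exact mul_pos (Vz_pos77 _) (Real.log_pos hT)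

/-- `rho ≥ c / ε` -/
theorem rh_ge77 : ∃ c : ℝ, 0 < c ∧ ∀ ε T : ℝ, 0 < ε → 1 < T → 2 ≤ T ^ ε → c / ε ≤ rh ε T := by
  obtain ⟨c, _, hc, _, h⟩ := Pool.Agent.PW.VV_bounds
  refine ⟨c, hc, fun ε T hε hT h2 => ?_⟩
  have h1 := (h (T ^ ε) h2).1
  have hL := Real.log_pos hT
  rw [Real.log_rpow (by linarith)] at h1
  rw [rh_eq77]
  calc c / ε = c / (ε * Real.log T) * Real.log T := by field_simp
    _ ≤ Vz (T ^ ε) * Real.log T := mul_le_mul_of_nonneg_right h1 hL.le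

/-- `rho ≤ C / ε` -/
theorem rh_le77 : ∃ C : ℝ, 0 < C ∧ ∀ ε T : ℝ, 0 < ε → 1 < T → 2 ≤ T ^ ε → rh ε T ≤ C / ε := by
  obtain ⟨_, C, _, hC, h⟩ := Pool.Agent.PW.VV_bounds
  refine ⟨C, hC, fun ε T hε hT h2 => ?_⟩
  have h1 := (h (T ^ ε) h2).2
  have hL := Real.log_pos hT
  rw [Real.log_rpow (by linarith)] at h1
  rw [rh_eq77]
  calc Vz (T ^ ε) * Real.log T ≤ C / (ε * Real.log T) * Real.log T := mul_le_mul_of_nonneg_right h1 hL.le
    _ = C / ε := by field_simp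

/-- **The one-variable sum.** -/
theorem one77 (B η : ℝ) (hB : 0 < B) (hη : 0 < η) : ∃ ε0 : ℝ, 0 < ε0 ∧ ∀ ε : ℝ, 0 < ε → ε ≤ ε0 → ∀ᶠ T : ℝ in atTop,
    Tst (RT ε T B) (fun n => 1 / (n : ℝ) / rh ε T) (yy T) (fun _ => 1) B η := by
  obtain ⟨s, e, z₀, hs, he0, he1, hes, hz₀, hFL⟩ := fund (η / (8 * (B + 1))) (by positivity)
  obtain ⟨C, hC0, hC⟩ := rough_sum
  obtain ⟨c, hc, hrh⟩ := rh_ge77
  have hs0 : (0:ℝ) ≤ s := Nat.cast_nonneg s
  have he2 : e ≤ η / (8 * (B + 1)) := by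
    have h1 : (1:ℝ) ≤ (s:ℝ) ^ 6 := one_le_pow₀ (by exact_mod_cast hs)
    nlinarith
  set h : ℝ := min 1 (η / (16 * (B + 1))) with hh
  have hh0 : 0 < h := lt_min one_pos (by positivity)
  have hh1 : h ≤ 1 := min_le_left _ _
  have hh2 : h ≤ η / (16 * (B + 1)) := min_le_right _ _
  refine ⟨η / (8 * ((s + 2) * (C / c + 1))), by positivity, fun ε hε hεle => ?_⟩
  have hz : Tendsto (fun T : ℝ => T ^ ε) atTop atTop := tendsto_rpow_atTop hε
  filter_upwards [hz.eventually_ge_atTop z₀, hz.eventually_ge_atTop 2, hz.eventually_ge_atTop (1 / h), eventually_gt_atTop 1,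
    Real.tendsto_log_atTop.eventually_ge_atTop (40 * (B + 1) / η)] with T h1 h2 h3 hT h4
  intro b hb hbB K f hf
  have hL := Real.log_pos hT
  have hρ := rh_pos77 (ε := ε) hT
  have hρ2 := hrh ε T hε hT h2
  have hK := hf.nonneg hb
  have hV := Vz_pos77 (T ^ ε)
  have hzh : 1 ≤ T ^ ε * h := by rwa [div_le_iff₀ hh0] at h3
  have hcore := core77 (b := b) hFL h1 h2 he0 he1 hh0 hh1 hzh hL (fun b' hb' => hC _ b' h2 hb') hb hf
  rw [Real.log_rpow (by linarith)] at hcore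
  have hsum : ∑ n ∈ RT ε T B, (if yy T n ≤ b then 1 / (n : ℝ) / rh ε T * f (yy T n) else 0) =
      (∑ n ∈ Rd (T ^ ε) (b * Real.log T), f (Real.log n / Real.log T) / n) / rh ε T := by
    rw [← Finset.sum_filter, Finset.sum_div]
    have hset : (RT ε T B).filter (fun n => yy T n ≤ b) = Rd (T ^ ε) (b * Real.log T) := by
      ext n
      rw [Finset.mem_filter, mem_RT_yy77 hT, mem_Rd77, RF_iff77]
      constructor
      · rintro ⟨⟨_, h6⟩, h7⟩
        refine ⟨?_, h6⟩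
        have hn : (0:ℝ) < n := by exact_mod_cast h6.1
        unfold yy at h7
        rw [div_le_iff₀ hL, Real.log_le_iff_le_exp hn] at h7
        exact h7
      · rintro ⟨h5, h6⟩
        have hn : (0:ℝ) < n := by exact_mod_cast h6.1
        have h7 : yy T n ≤ b := by
          unfold yy
          rw [div_le_iff₀ hL, Real.log_le_iff_le_exp hn]
          exact h5
        exact ⟨⟨h7.trans hbB, h6⟩, h7⟩
    rw [hset]
    refine Finset.sum_congr rfl fun n _ => ?_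
    unfold yy
    ring
  rw [hsum]
  have e1 : (∑ n ∈ Rd (T ^ ε) (b * Real.log T), f (Real.log n / Real.log T) / n) / rh ε T - ∫ x in (0:ℝ)..b, 1 * f x =
      ((∑ n ∈ Rd (T ^ ε) (b * Real.log T), f (Real.log n / Real.log T) / n) -
        Vz (T ^ ε) * Real.log T * ∫ x in (0:ℝ)..b, f x) / rh ε T := by
    simp only [one_mul]
    rw [sub_div, rh_eq77]
    field_simp
  rw [e1, abs_div, abs_of_pos hρ, div_le_iff₀ hρ]
  refine hcore.trans ?_
  have hρe : Vz (T ^ ε) * Real.log T = rh ε T := rfl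
  have g1 : Vz (T ^ ε) * Real.log T * b * (e + 2 * h + 5 * h / Real.log T) ≤ 3 * η / 8 * rh ε T := by
    rw [hρe]
    have h5 : 5 * h / Real.log T ≤ η / (8 * (B + 1)) := by
      rw [div_le_div_iff₀ hL (by positivity)]
      rw [div_le_iff₀ hη] at h4
      nlinarith
    have h6 : e + 2 * h + 5 * h / Real.log T ≤ 3 * η / (8 * (B + 1)) := by
      have h7 : 2 * (η / (16 * (B + 1))) = η / (8 * (B + 1)) := by field_simp; norm_num
      have h8 : 3 * η / (8 * (B + 1)) = η / (8 * (B + 1)) + η / (8 * (B + 1)) + η / (8 * (B + 1)) := by ring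
      linarith
    calc rh ε T * b * (e + 2 * h + 5 * h / Real.log T) ≤ rh ε T * (B + 1) * (3 * η / (8 * (B + 1))) := by
          apply mul_le_mul (mul_le_mul_of_nonneg_left (by linarith) hρ.le) h6 (by positivity) (by positivity)
      _ = 3 * η / 8 * rh ε T := by field_simp
  have g2 : 5 * (Vz (T ^ ε) * h) ≤ η / 8 * rh ε T := by
    rw [rh_eq77]
    have h5 : 5 * h ≤ η / 8 * Real.log T := by
      have h6 : η * (40 * (B + 1) / η) ≤ η * Real.log T := mul_le_mul_of_nonneg_left h4 hη.le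
      rw [mul_div_cancel₀ _ hη.ne'] at h6
      nlinarith
    calc 5 * (Vz (T ^ ε) * h) = Vz (T ^ ε) * (5 * h) := by ring
      _ ≤ Vz (T ^ ε) * (η / 8 * Real.log T) := mul_le_mul_of_nonneg_left h5 hV.le
      _ = _ := by ring
  have g3 : C * (s + 2) + Vz (T ^ ε) * ((s + 2) * (ε * Real.log T)) ≤ η / 8 * rh ε T := by
    have h5 : C * (s + 2) ≤ C / c * (s + 2) * ε * rh ε T := by
      rw [div_le_iff₀ hε] at hρ2
      calc C * (s + 2) = C / c * (s + 2) * c := by field_simp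
        _ ≤ C / c * (s + 2) * (rh ε T * ε) := mul_le_mul_of_nonneg_left hρ2 (by positivity)
        _ = _ := by ring
    have h6 : Vz (T ^ ε) * ((s + 2) * (ε * Real.log T)) = (s + 2) * ε * rh ε T := by rw [rh_eq77]; ring
    have h7 : ε * ((s + 2) * (C / c + 1)) ≤ η / 8 := by
      rw [le_div_iff₀ (by positivity)] at hεle
      linarith
    calc C * (s + 2) + Vz (T ^ ε) * ((s + 2) * (ε * Real.log T)) ≤ C / c * (s + 2) * ε * rh ε T + (s + 2) * ε * rh ε T := by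
          rw [h6]; linarith
      _ = ε * ((s + 2) * (C / c + 1)) * rh ε T := by ring
      _ ≤ η / 8 * rh ε T := mul_le_mul_of_nonneg_right h7 hρ.le
  have g4 : Vz (T ^ ε) * Real.log T * b * (e + 2 * h + 5 * h / Real.log T) + 5 * (Vz (T ^ ε) * h) + C * (s + 2) +
      Vz (T ^ ε) * ((s + 2) * (ε * Real.log T)) ≤ η * rh ε T := by
    have : 0 ≤ η * rh ε T := by positivity
    linarith
  calc _ ≤ η * rh ε T * K := mul_le_mul_of_nonneg_right g4 hK
    _ = η * K * rh ε T := by ring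

end Pool.Agent.Helper77.HG
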